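import Pool.Agent.Lib.H6V.D2

/-!
# H42N, file B (MP_030a1d): the number of `n ≤ x` with an admissible `k` is at least `C x / log x` for every `C`,
from the upper bound for pairs (`hpair`); second half (helper63)
-/

set_option autoImplicit false

namespace H42N

open Finset Filter

open Classical in
/-- The `n ≤ x` with two representations. -/
noncomputable def PairSet (d d' A A' x : ℕ) : Finset ℕ :=
  (range (x + 1)).filter (fun n => (∃ p, p.Prime ∧ n + d = A * p) ∧ ∃ p, p.Prime ∧ n + d' = A' * p)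

open Classical in
/-- The family `n = l p + (l - 1)(p - 1)`. -/
noncomputable def T (l x : ℕ) : Finset ℕ :=
  (range (x + 1)).filter (fun n => ∃ p, p.Prime ∧ p ≠ l ∧ n + (l - 1) = (2 * l - 1) * p)

open Classical in
/-- The `n ≤ x` with an admissible `k`. -/
noncomputable def Adm (x : ℕ) : Finset ℕ :=
  (range (x + 1)).filter (fun n => ∃ k, 0 < k ∧ k < n ∧ IsSquare (k * Nat.totient (n - k)))

theorem T_sub {l x : ℕ} (hl : l.Prime) : T l x ⊆ Adm x := by
  classical
  intro n hn
  rw [T, mem_filter] at hn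
  obtain ⟨hx, p, hp, hpl, h⟩ := hn
  rw [Adm, mem_filter]
  refine ⟨hx, (l - 1) * (p - 1), ?_, ?_, ?_⟩
  · have h1 := hl.two_le
    have h2 := hp.two_le
    exact Nat.mul_pos (by omega) (by omega)
  all_goals
    obtain ⟨a, rfl⟩ : ∃ a, l = a + 1 := ⟨l - 1, by have := hl.two_le; omega⟩
    obtain ⟨b, rfl⟩ : ∃ b, p = b + 1 := ⟨p - 1, by have := hp.two_le; omega⟩
    have hn : n = (a + 1) * (b + 1) + a * b := by
      have h3 : 2 * (a + 1) - 1 = 2 * a + 1 := by omega
      rw [h3, Nat.add_sub_cancel] at h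
      nlinarith
  · rw [hn, Nat.add_sub_cancel, Nat.add_sub_cancel]
    have : 0 < (a + 1) * (b + 1) := by positivity
    omega
  · rw [hn, Nat.add_sub_cancel, Nat.add_sub_cancel, Nat.add_sub_cancel,
      Nat.totient_mul ((Nat.coprime_primes hl hp).2 hpl.symm), Nat.totient_prime hl, Nat.totient_prime hp,
      Nat.add_sub_cancel, Nat.add_sub_cancel]
    exact ⟨a * b, rfl⟩

theorem T_inter {l l' x : ℕ} : T l x ∩ T l' x ⊆ PairSet (l - 1) (l' - 1) (2 * l - 1) (2 * l' - 1) x := by
  classical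
  intro n hn
  rw [mem_inter, T, T, mem_filter, mem_filter] at hn
  obtain ⟨⟨hx, p, hp, -, h⟩, -, q, hq, -, h'⟩ := hn
  rw [PairSet, mem_filter]
  exact ⟨hx, ⟨p, hp, h⟩, q, hq, h'⟩

theorem T_card {l x : ℕ} (hl : l.Prime) : Nat.primeCounting (x / (2 * l - 1)) ≤ (T l x).card + 1 := by
  classical
  have h2 := hl.two_le
  have hA : Nat.primeCounting (x / (2 * l - 1)) = ((range (x / (2 * l - 1) + 1)).filter Nat.Prime).card := by
    rw [Nat.primeCounting, Nat.primeCounting', Nat.count_eq_card_filter_range]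
  have h3 : ((range (x / (2 * l - 1) + 1)).filter Nat.Prime).card ≤
      (((range (x / (2 * l - 1) + 1)).filter Nat.Prime).erase l).card + 1 := by
    have := pred_card_le_card_erase (s := (range (x / (2 * l - 1) + 1)).filter Nat.Prime) (a := l)
    omega
  have h4 : (((range (x / (2 * l - 1) + 1)).filter Nat.Prime).erase l).card ≤ (T l x).card := by
    refine card_le_card_of_injOn (fun p => (2 * l - 1) * p - (l - 1)) (fun p hp => ?_) (fun p hp q hq h => ?_)
    · rw [mem_coe, mem_erase, mem_filter, mem_range] at hp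
      have h5 : (2 * l - 1) * p ≤ x := by
        calc (2 * l - 1) * p ≤ (2 * l - 1) * (x / (2 * l - 1)) := Nat.mul_le_mul_left _ (by omega)
          _ ≤ x := Nat.mul_div_le _ _
      have h6 : l - 1 ≤ (2 * l - 1) * p := by
        calc l - 1 ≤ (2 * l - 1) * 1 := by omega
          _ ≤ (2 * l - 1) * p := Nat.mul_le_mul_left _ hp.2.2.one_lt.le
      simp only [T, coe_filter, mem_range, Set.mem_ofPred_eq]
      exact ⟨by omega, p, hp.2.2, hp.1, by omega⟩
    · rw [mem_coe, mem_erase, mem_filter, mem_range] at hp hq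
      simp only at h
      have h6 : l - 1 ≤ (2 * l - 1) * p := by
        calc l - 1 ≤ (2 * l - 1) * 1 := by omega
          _ ≤ (2 * l - 1) * p := Nat.mul_le_mul_left _ hp.2.2.one_lt.le
      have h7 : l - 1 ≤ (2 * l - 1) * q := by
        calc l - 1 ≤ (2 * l - 1) * 1 := by omega
          _ ≤ (2 * l - 1) * q := Nat.mul_le_mul_left _ hq.2.2.one_lt.le
      exact Nat.eq_of_mul_eq_mul_left (show 0 < 2 * l - 1 by omega) (by omega)
  omega

/-- Bonferroni. -/
theorem bonf (S : Finset ℕ) (f : ℕ → Finset ℕ) :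
    ∑ l ∈ S, (f l).card ≤ (S.biUnion f).card + ∑ l ∈ S, ∑ l' ∈ S.erase l, (f l ∩ f l').card := by
  classical
  induction S using Finset.induction_on with
  | empty => simp
  | @insert a S ha ih =>
    have h1 : (f a).card + (S.biUnion f).card ≤ ((insert a S).biUnion f).card + ∑ l' ∈ S, (f a ∩ f l').card := by
      rw [biUnion_insert, ← card_union_add_card_inter]
      have h2 : (f a ∩ S.biUnion f).card ≤ ∑ l' ∈ S, (f a ∩ f l').card := by
        rw [inter_biUnion]
        exact card_biUnion_le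
      omega
    rw [sum_insert ha, sum_insert ha, erase_insert ha]
    have h3 : ∑ l ∈ S, ∑ l' ∈ S.erase l, (f l ∩ f l').card ≤
        ∑ l ∈ S, ∑ l' ∈ (insert a S).erase l, (f l ∩ f l').card := by
      refine sum_le_sum fun l _ => sum_le_sum_of_subset ?_
      exact erase_subset_erase _ (subset_insert _ _)
    omega

theorem exists_primes (K : ℝ) : ∃ S : Finset ℕ, (∀ l ∈ S, l.Prime) ∧ K ≤ ∑ l ∈ S, (1 : ℝ) / l := by
  have h1 := (not_summable_iff_tendsto_nat_atTop_of_nonneg (f := Set.indicator {p | p.Prime} (fun n : ℕ => (1 : ℝ) / n))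
    (fun n => Set.indicator_nonneg (fun _ _ => by positivity) n)).1 not_summable_one_div_on_primes
  obtain ⟨N, hN⟩ := (h1.eventually_ge_atTop K).exists
  refine ⟨(range N).filter Nat.Prime, fun l hl => (mem_filter.1 hl).2, ?_⟩
  rw [sum_filter]
  refine hN.trans (le_of_eq (sum_congr rfl fun n _ => ?_))
  by_cases h : n.Prime
  · rw [if_pos h, Set.indicator_of_mem]
    exact h
  · rw [if_neg h, Set.indicator_of_notMem]
    exact h

theorem main (hpair : ∀ d d' A A' : ℕ, d ≠ d' → 0 < A → 0 < A' → ∃ (B : ℝ) (x₀ : ℕ), ∀ x, x₀ ≤ x →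
      ((PairSet d d' A A' x).card : ℝ) ≤ B * (x / Real.log x ^ 2)) (C : ℝ) :
    ∃ x₀ : ℕ, ∀ x, x₀ ≤ x → C * (x / Real.log x) ≤ ((Adm x).card : ℝ) := by
  classical
  obtain ⟨c, hc, X₀, hpi⟩ := H6V.pi_lower
  obtain ⟨S, hS, hK⟩ := exists_primes ((C + 1) * 2 / c)
  -- the bound for pairs
  have hB : ∃ B : ℝ, ∃ x₁ : ℕ, ∀ x, x₁ ≤ x →
      ((∑ l ∈ S, ∑ l' ∈ S.erase l, (T l x ∩ T l' x).card : ℕ) : ℝ) ≤ B * (x / Real.log x ^ 2) := by
    have h1 : ∀ l ∈ S, ∀ l' ∈ S.erase l, ∃ (B : ℝ) (x₀ : ℕ), ∀ x, x₀ ≤ x →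
        ((T l x ∩ T l' x).card : ℝ) ≤ B * (x / Real.log x ^ 2) := by
      intro l hl l' hl'
      have hl1 := (hS l hl).two_le
      have hl2 := (hS l' (mem_of_mem_erase hl')).two_le
      have hne := ne_of_mem_erase hl'
      obtain ⟨B, x₀, h⟩ := hpair (l - 1) (l' - 1) (2 * l - 1) (2 * l' - 1) (by omega) (by omega) (by omega)
      exact ⟨B, x₀, fun x hx => le_trans (by exact_mod_cast card_le_card T_inter) (h x hx)⟩
    choose! B x₀ hBx using h1
    refine ⟨∑ l ∈ S, ∑ l' ∈ S.erase l, B l l', S.sup fun l => (S.erase l).sup fun l' => x₀ l l', fun x hx => ?_⟩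
    push_cast
    rw [sum_mul]
    refine sum_le_sum fun l hl => ?_
    rw [sum_mul]
    refine sum_le_sum fun l' hl' => hBx l hl l' hl' x (le_trans ?_ hx)
    exact (le_sup (f := fun l' => x₀ l l') hl').trans (le_sup (f := fun l => (S.erase l).sup fun l' => x₀ l l') hl)
  obtain ⟨B, x₁, hB⟩ := hB
  -- the conditions on x
  have e1 : ∀ᶠ x : ℕ in atTop, (S.card : ℝ) * c + S.card * Real.log x ≤ x / 2 := by
    have h1 : Tendsto (fun x : ℕ => Real.log (x : ℝ) / (x : ℝ)) atTop (nhds 0) :=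
      (Real.isLittleO_log_id_atTop.tendsto_div_nhds_zero).comp tendsto_natCast_atTop_atTop
    have h2 : Tendsto (fun x : ℕ => (S.card : ℝ) * c / (x : ℝ)) atTop (nhds 0) :=
      tendsto_const_nhds.div_atTop tendsto_natCast_atTop_atTop
    have h3 := (h2.add (h1.const_mul (S.card : ℝ)))
    rw [mul_zero, add_zero] at h3
    have h4 := h3.eventually (gt_mem_nhds (show (0 : ℝ) < 1 / 2 by norm_num))
    filter_upwards [h4, eventually_gt_atTop 0] with x hx hx0
    have hx0' : (0 : ℝ) < x := by exact_mod_cast hx0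
    have h5 : (S.card : ℝ) * c / x + S.card * (Real.log x / x) = ((S.card : ℝ) * c + S.card * Real.log x) / x := by
      ring
    rw [h5, div_lt_iff₀ hx0'] at hx
    linarith
  have e2 : ∀ᶠ x : ℕ in atTop, 2 * |B| + 1 ≤ Real.log x :=
    (Real.tendsto_log_atTop.comp tendsto_natCast_atTop_atTop).eventually_ge_atTop _
  have e3 : ∀ᶠ x : ℕ in atTop, ∀ l ∈ S, X₀ ≤ x / (2 * l - 1) := by
    rw [eventually_all_finset]
    intro l hl
    have hl1 := (hS l hl).two_le
    filter_upwards [eventually_ge_atTop (X₀ * (2 * l - 1))] with x hx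
    exact (Nat.le_div_iff_mul_le (by omega)).2 hx
  obtain ⟨x₂, h2⟩ := eventually_atTop.1 (e1.and (e2.and e3))
  refine ⟨max x₁ x₂, fun x hx => ?_⟩
  obtain ⟨f1, f2, f3⟩ := h2 x ((le_max_right _ _).trans hx)
  have hBx := hB x ((le_max_left _ _).trans hx)
  have hB0 := abs_nonneg B
  have hL : 0 < Real.log x := by linarith
  have hx0 : (0 : ℝ) ≤ x := Nat.cast_nonneg x
  have hb := bonf S fun l => T l x
  have hU : (S.biUnion fun l => T l x).card ≤ (Adm x).card := by
    refine card_le_card ?_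
    rw [biUnion_subset]
    exact fun l hl => T_sub (hS l hl)
  -- lower bound of the sum
  have hT : ∀ l ∈ S, c * ((x : ℝ) / (2 * l) - 1) / Real.log x ≤ ((T l x).card : ℝ) + 1 := by
    intro l hl
    have hl1 := (hS l hl).two_le
    have hl2 : (2 : ℝ) ≤ l := by exact_mod_cast hl1
    have h3 := hpi (x / (2 * l - 1)) (f3 l hl)
    have h4 : ((x / (2 * l - 1) : ℕ) : ℝ) ≤ x := by exact_mod_cast Nat.div_le_self _ _
    have h5 : (Nat.primeCounting (x / (2 * l - 1)) : ℝ) ≤ ((T l x).card : ℝ) + 1 := by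
      exact_mod_cast T_card (hS l hl)
    have h6 : (x : ℝ) / (2 * l) - 1 ≤ ((x / (2 * l - 1) : ℕ) : ℝ) := by
      have h7 : x < (2 * l - 1) * (x / (2 * l - 1) + 1) := Nat.lt_mul_div_succ _ (by omega)
      have h8 : x ≤ (2 * l) * (x / (2 * l - 1) + 1) := h7.le.trans (Nat.mul_le_mul_right _ (by omega))
      have h9 : (x : ℝ) ≤ (2 * l) * (((x / (2 * l - 1) : ℕ) : ℝ) + 1) := by exact_mod_cast h8
      rw [sub_le_iff_le_add, div_le_iff₀ (by linarith)]
      linarith
    rw [div_le_iff₀ hL]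
    calc c * ((x : ℝ) / (2 * l) - 1) ≤ c * ((x / (2 * l - 1) : ℕ) : ℝ) := mul_le_mul_of_nonneg_left h6 hc.le
      _ ≤ (Nat.primeCounting (x / (2 * l - 1)) : ℝ) * Real.log ((x / (2 * l - 1) : ℕ) : ℝ) := h3
      _ ≤ (Nat.primeCounting (x / (2 * l - 1)) : ℝ) * Real.log x := by
        refine mul_le_mul_of_nonneg_left ?_ (Nat.cast_nonneg _)
        rcases Nat.eq_zero_or_pos (x / (2 * l - 1)) with h0 | h0
        · rw [h0]
          simp only [Nat.cast_zero, Real.log_zero]
          exact hL.le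
        · exact Real.log_le_log (by exact_mod_cast h0) h4
      _ ≤ (((T l x).card : ℝ) + 1) * Real.log x := mul_le_mul_of_nonneg_right h5 hL.le
  have hsum : c * ((x : ℝ) / 2 * (∑ l ∈ S, (1 : ℝ) / l) - S.card) / Real.log x ≤
      (∑ l ∈ S, ((T l x).card : ℝ)) + S.card := by
    have h3 := sum_le_sum hT
    rw [sum_add_distrib, sum_const, nsmul_eq_mul, mul_one] at h3
    refine le_trans (le_of_eq ?_) h3
    rw [← sum_div, ← mul_sum, sum_sub_distrib, sum_const, nsmul_eq_mul, mul_one, mul_sum]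
    congr 3
    refine sum_congr rfl fun l _ => ?_
    by_cases h0 : (l : ℝ) = 0
    · simp [h0]
    · field_simp
  have hmain : (∑ l ∈ S, ((T l x).card : ℝ)) ≤ ((Adm x).card : ℝ) + B * (x / Real.log x ^ 2) := by
    have h3 : ((∑ l ∈ S, (T l x).card : ℕ) : ℝ) ≤
        ((S.biUnion fun l => T l x).card : ℝ) +
          ((∑ l ∈ S, ∑ l' ∈ S.erase l, (T l x ∩ T l' x).card : ℕ) : ℝ) := by exact_mod_cast hb
    push_cast at h3 hBx
    have h4 : ((S.biUnion fun l => T l x).card : ℝ) ≤ ((Adm x).card : ℝ) := by exact_mod_cast hU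
    linarith
  -- the end
  have h9 : B * (x / Real.log x ^ 2) ≤ (x / 2) / Real.log x := by
    rw [pow_two, ← div_div, ← mul_div_assoc]
    refine div_le_div_of_nonneg_right ?_ hL.le
    rw [← mul_div_assoc, div_le_iff₀ hL]
    have := le_abs_self B
    nlinarith
  have h10 : c * ((x : ℝ) / 2 * ((C + 1) * 2 / c) - S.card) / Real.log x ≤
      c * ((x : ℝ) / 2 * (∑ l ∈ S, (1 : ℝ) / l) - S.card) / Real.log x := by
    refine div_le_div_of_nonneg_right (mul_le_mul_of_nonneg_left (sub_le_sub_right ?_ _) hc.le) hL.le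
    exact mul_le_mul_of_nonneg_left hK (by positivity)
  have h11 : c * ((x : ℝ) / 2 * ((C + 1) * 2 / c) - S.card) / Real.log x =
      (C + 1) * (x / Real.log x) - S.card * c / Real.log x := by
    field_simp
  have h12 : (S.card : ℝ) * c / Real.log x + S.card ≤ (x / 2) / Real.log x := by
    rw [← sub_nonneg]
    have : (x / 2 : ℝ) / Real.log x - (S.card * c / Real.log x + S.card) =
        (x / 2 - (S.card * c + S.card * Real.log x)) / Real.log x := by
      field_simp
    rw [this]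
    exact div_nonneg (by linarith) hL.le
  have h13 : (C + 1) * ((x : ℝ) / Real.log x) = C * (x / Real.log x) + (x / 2) / Real.log x + (x / 2) / Real.log x := by
    ring
  linarith

end H42N
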